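import Pool.Agent.N598.BT.Grid

/-!
# Sets without grids are small
-/

set_option autoImplicit false

open Finset

namespace Pool.Agent.N598.BT

open Pool.Agent.TH700.PA

variable {V K Al I : Type}

open Classical in
/-- the words of `P` -/
noncomputable def wd [Fintype V] [Fintype Al] (o : V → Al) (P : Finset V) : Finset (V → Al) :=
  univ.filter fun u => ∀ v, v ∉ P → u v = o v

theorem mem_wd [Fintype V] [Fintype Al] {o : V → Al} {P : Finset V} {u : V → Al} :
    u ∈ wd o P ↔ ∀ v, v ∉ P → u v = o v := by
  simp [wd]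

theorem card_wd [Fintype V] [Fintype Al] (o : V → Al) (P : Finset V) :
    (wd o P).card ≤ Fintype.card Al ^ P.card := by
  classical
  have h : (wd o P).card ≤ (univ : Finset (P → Al)).card := by
    refine card_le_card_of_injOn (fun u => fun v : P => u v.1) (fun _ _ => mem_coe.2 (mem_univ _)) ?_
    intro u hu u' hu' he
    rw [mem_coe, mem_wd] at hu hu'
    funext v
    by_cases hv : v ∈ P
    · exact congrFun he ⟨v, hv⟩
    · rw [hu v hv, hu' v hv]
  rw [card_univ, Fintype.card_fun, Fintype.card_coe] at h
  exact h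

/-- the support is covered by the supports of the sections -/
theorem card_sp_le [Fintype V] [DecidableEq V] [Fintype Al] [Zero K] (o : V → Al) (P U : Finset V)
    (f : (V → Al) → K) :
    (sp o (P ∪ U) f).card ≤ ∑ u ∈ wd o P, (sp o U (fun z => f (mix P u z))).card := by
  classical
  have h : sp o (P ∪ U) f ⊆
      (wd o P).biUnion fun u => (sp o U (fun z => f (mix P u z))).image (mix P u) := by
    intro z hz
    rw [mem_sp] at hz
    have h1 : mix P (mix P z o) (mix P o z) = z := by
      funext v
      by_cases hv : v ∈ P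
      · rw [mix_mem hv, mix_mem hv]
      · rw [mix_not hv, mix_not hv]
    rw [mem_biUnion]
    refine ⟨mix P z o, mem_wd.2 fun v hv => mix_not hv, mem_image.2 ⟨mix P o z, mem_sp.2 ⟨?_, ?_⟩, h1⟩⟩
    · intro v hv
      by_cases hvP : v ∈ P
      · exact mix_mem hvP
      · rw [mix_not hvP]
        exact hz.1 v fun h' => (mem_union.1 h').elim hvP hv
    · rw [h1]
      exact hz.2
  exact (card_le_card h).trans (card_biUnion_le.trans (sum_le_sum fun u _ => card_image_le))

theorem main [Field K] [Fintype V] [DecidableEq V] [Fintype Al] [Nonempty Al] [DecidableEq I]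
    (X : I → Finset V) {t : ℕ} (ht : 1 ≤ t) (o : V → Al) {Λ : ℕ} (hΛ1 : 1 ≤ Λ) :
    ∀ (L : List (Finset V)) (D : Finset I) (d : ℕ) (f : (V → Al) → K), L.Pairwise Disjoint →
      (∀ P ∈ L, Rk d f P) → (∀ P ∈ L, Fintype.card Al ^ P.card ≤ Λ) →
      (∀ pt, ¬ Grid X t D {z | (∀ v, v ∉ UU L → z v = o v) ∧ f z ≠ 0} pt) →
      (sp o (UU L) f).card ≤ KK t D.card L.length d * Λ ^ D.card *
        Fintype.card Al ^ (D.sup fun i => (X i ∩ UU L).card) := by
  classical
  have hq : 1 ≤ Fintype.card Al := Fintype.card_pos
  -- no directions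
  have hD0 : ∀ (L : List (Finset V)) (f : (V → Al) → K),
      (∀ pt, ¬ Grid X t ∅ {z | (∀ v, v ∉ UU L → z v = o v) ∧ f z ≠ 0} pt) →
      (sp o (UU L) f).card = 0 := by
    intro L f hno
    rw [card_eq_zero, eq_empty_iff_forall_notMem]
    intro z hz
    rw [mem_sp] at hz
    exact hno _ (grid_empty (X := X) (t := t) (z := z) hz)
  intro L
  induction L with
  | nil =>
    intro D d f _ _ _ hno
    rcases D.eq_empty_or_nonempty with rfl | hD
    · rw [hD0 [] f hno]
      exact Nat.zero_le _
    · obtain ⟨r, hr⟩ : ∃ r, D.card = r + 1 := ⟨D.card - 1, by have := hD.card_pos; omega⟩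
      have h1 : (sp o (UU ([] : List (Finset V))) f).card ≤ 1 := by
        rw [card_le_one]
        intro a ha b hb
        rw [mem_sp] at ha hb
        funext v
        rw [ha.1 v (by simp [UU]), hb.1 v (by simp [UU])]
      refine h1.trans ?_
      rw [hr]
      show 1 ≤ KK t (r + 1) 0 d * Λ ^ (r + 1) * _
      rw [KK, one_mul]
      exact Nat.mul_pos (Nat.pow_pos hΛ1) (Nat.pow_pos hq)
  | cons P L ih =>
    intro D d f hdis hRk hΛ hno
    rcases D.eq_empty_or_nonempty with rfl | hD
    · rw [hD0 (P :: L) f hno]
      exact Nat.zero_le _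
    obtain ⟨r, hr⟩ : ∃ r, D.card = r + 1 := ⟨D.card - 1, by have := hD.card_pos; omega⟩
    obtain ⟨t', rfl⟩ : ∃ t', t = t' + 1 := ⟨t - 1, by omega⟩
    have hPU : Disjoint P (UU L) := by
      rw [List.pairwise_cons] at hdis
      rw [disjoint_left]
      intro v hv hv'
      obtain ⟨Q, hQ, hvQ⟩ := mem_UU.1 hv'
      exact disjoint_left.1 (hdis.1 Q hQ) hv hvQ
    obtain ⟨i, hi, hmin⟩ := exists_min_image D (fun i => (X i ∩ P).card) hD
    have hRkL : ∀ Q ∈ L, Rk d f Q := fun Q hQ => hRk Q (List.mem_cons_of_mem _ hQ)
    have hΛL : ∀ Q ∈ L, Fintype.card Al ^ Q.card ≤ Λ := fun Q hQ =>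
      hΛ Q (List.mem_cons_of_mem _ hQ)
    have hdisL : L.Pairwise Disjoint := (List.pairwise_cons.1 hdis).2
    -- the bound for one section
    obtain ⟨S1, hS1⟩ : ∃ S, S = KK (t' + 1) D.card L.length d * Λ ^ D.card *
        Fintype.card Al ^ (D.sup fun i => (X i ∩ UU L).card) := ⟨_, rfl⟩
    have hs1 : ∀ u, (sp o (UU L) (sec f P u)).card ≤ S1 := by
      intro u
      rw [hS1]
      refine ih D d (sec f P u) hdisL (fun Q hQ => rk_sec u (hRkL Q hQ)) hΛL fun pt hpt => ?_
      have := grid_sec hPU hpt
      rw [← UU_cons] at this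
      exact hno _ this
    -- the bound for products
    obtain ⟨S2, hS2⟩ : ∃ S, S = KK (t' + 1) r L.length (d ^ (t' + 1)) * Λ ^ r *
        Fintype.card Al ^ ((D.erase i).sup fun i => (X i ∩ UU L).card) := ⟨_, rfl⟩
    have hs2 : ∀ w : Fin (t' + 1) → V → Al, (∀ s v, v ∉ P → w s v = o v) →
        Function.Injective w → (∀ s s' v, v ∈ X i → v ∈ P → w s v = w s' v) →
        (sp o (UU L) (fun z => ∏ s, sec f P (w s) z)).card ≤ S2 := by
      intro w hw1 hw2 hw3
      rw [hS2]
      have hcard : (D.erase i).card = r := by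
        rw [card_erase_of_mem hi, hr]
        rfl
      have := ih (D.erase i) (d ^ (t' + 1)) (fun z => ∏ s, sec f P (w s) z) hdisL
        (fun Q hQ => rk_prod _ fun s => rk_sec _ (hRkL Q hQ)) hΛL (fun pt hpt => by
          have h2 := grid_step hi hPU w hw1 hw2 hw3 hpt
          rw [← UU_cons] at h2
          exact hno _ h2)
      rwa [hcard] at this
    -- the bases
    obtain ⟨J, iJ, g, H, h0, h1, h2, h3⟩ := hRk P (List.mem_cons_self)
    have hval : ∀ u z, sec f P u z = ∑ k, g u k * H z k := by
      intro u z
      unfold sec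
      rw [h3, h1 (mix P u z) u (fun v hv => mix_mem hv), h2 (mix P u z) z (fun v hv => mix_not hv)]
    let κ : (V → Al) → ({v // v ∈ X i ∩ P} → Al) := fun u v => u v.1
    -- one class
    have hclass : ∀ a : ({v // v ∈ X i ∩ P} → Al),
        ∑ u ∈ (wd o P).filter (fun u => κ u = a), (sp o (UU L) (sec f P u)).card ≤
          t' * d * S1 + ((wd o P).filter (fun u => κ u = a)).card * (d ^ t' * S2) := by
      intro a
      obtain ⟨C, hC⟩ : ∃ C, C = (wd o P).filter (fun u => κ u = a) := ⟨_, rfl⟩
      rw [← hC]
      obtain ⟨B, b1, b2, b3, b4⟩ := bases (K := K) d t' (fun _ => J) (fun _ => iJ) (fun _ => g)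
        (fun _ => h0) C
      have hlight : ∀ u ∈ C \ univ.biUnion B, (sp o (UU L) (sec f P u)).card ≤ d ^ t' * S2 := by
        intro u hu
        rw [mem_sdiff, mem_biUnion] at hu
        obtain ⟨huC, huB⟩ := hu
        push Not at huB
        have huB' : ∀ j, u ∉ B j := fun j => huB j (mem_univ j)
        have hsp := b4 u huC huB'
        have hcov : sp o (UU L) (sec f P u) ⊆ (Fintype.piFinset B).biUnion fun β =>
            sp o (UU L) (fun z => ∏ s, sec f P ((Fin.cons u β : Fin (t' + 1) → V → Al) s) z) := by
          intro z hz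
          rw [mem_sp] at hz
          have hex : ∀ j, ∃ b ∈ B j, sec f P b z ≠ 0 := by
            intro j
            by_contra hcon
            push Not at hcon
            apply hz.2
            rw [hval]
            have hle : Submodule.span K (g '' (B j : Set (V → Al))) ≤
                LinearMap.ker (Fintype.linearCombination K (H z)) := by
              rw [Submodule.span_le]
              rintro _ ⟨y, hy, rfl⟩
              have h5 := hcon y hy
              rw [hval] at h5
              rw [SetLike.mem_coe, LinearMap.mem_ker, Fintype.linearCombination_apply]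
              simpa only [smul_eq_mul] using h5
            have h6 := hle (hsp j)
            rw [LinearMap.mem_ker, Fintype.linearCombination_apply] at h6
            simpa only [smul_eq_mul] using h6
          choose β hβ1 hβ2 using hex
          rw [mem_biUnion]
          refine ⟨β, Fintype.mem_piFinset.2 hβ1, mem_sp.2 ⟨hz.1, ?_⟩⟩
          rw [prod_ne_zero_iff]
          intro s _
          refine Fin.cases ?_ (fun s => ?_) s
          · rw [Fin.cons_zero]
            exact hz.2
          · rw [Fin.cons_succ]
            exact hβ2 s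
        have hCm : ∀ u ∈ C, (∀ v, v ∉ P → u v = o v) ∧ κ u = a := by
          intro u hu
          rw [hC, mem_filter, mem_wd] at hu
          exact hu
        calc (sp o (UU L) (sec f P u)).card
            ≤ ∑ β ∈ Fintype.piFinset B, (sp o (UU L)
                (fun z => ∏ s, sec f P ((Fin.cons u β : Fin (t' + 1) → V → Al) s) z)).card :=
              (card_le_card hcov).trans card_biUnion_le
          _ ≤ ∑ _β ∈ Fintype.piFinset B, S2 := by
              refine sum_le_sum fun β hβ => ?_
              rw [Fintype.mem_piFinset] at hβ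
              have hmemC : ∀ s, (Fin.cons u β : Fin (t' + 1) → V → Al) s ∈ C := by
                intro s
                refine Fin.cases ?_ (fun s => ?_) s
                · rw [Fin.cons_zero]; exact huC
                · rw [Fin.cons_succ]; exact b1 s (hβ s)
              refine hs2 _ (fun s => (hCm _ (hmemC s)).1) ?_ ?_
              · rw [Fin.cons_injective_iff]
                refine ⟨?_, fun s s' hss => ?_⟩
                · rintro ⟨s, hs⟩
                  exact huB' s (hs ▸ hβ s)
                · by_contra hne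
                  exact disjoint_left.1 (b3 s s' hne) (hβ s) (hss ▸ hβ s')
              · intro s s' v hv hvP
                have e1 := congrFun (hCm _ (hmemC s)).2 ⟨v, mem_inter.2 ⟨hv, hvP⟩⟩
                have e2 := congrFun (hCm _ (hmemC s')).2 ⟨v, mem_inter.2 ⟨hv, hvP⟩⟩
                exact e1.trans e2.symm
          _ ≤ d ^ t' * S2 := by
              rw [sum_const, smul_eq_mul, Fintype.card_piFinset]
              refine Nat.mul_le_mul_right _ ?_
              calc ∏ j, (B j).card ≤ ∏ _j : Fin t', d := prod_le_prod' fun j _ => b2 j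
                _ = d ^ t' := by simp
      have hsplit : C ⊆ (univ.biUnion B) ∪ (C \ univ.biUnion B) := by
        intro u hu
        by_cases h : u ∈ univ.biUnion B
        · exact mem_union_left _ h
        · exact mem_union_right _ (mem_sdiff.2 ⟨hu, h⟩)
      calc ∑ u ∈ C, (sp o (UU L) (sec f P u)).card
          ≤ ∑ u ∈ (univ.biUnion B) ∪ (C \ univ.biUnion B), (sp o (UU L) (sec f P u)).card :=
            sum_le_sum_of_subset hsplit
        _ ≤ ∑ u ∈ univ.biUnion B, (sp o (UU L) (sec f P u)).card +
              ∑ u ∈ C \ univ.biUnion B, (sp o (UU L) (sec f P u)).card := by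
            rw [sum_union disjoint_sdiff]
        _ ≤ ∑ _u ∈ univ.biUnion B, S1 + ∑ _u ∈ C \ univ.biUnion B, d ^ t' * S2 :=
            Nat.add_le_add (sum_le_sum fun u _ => hs1 u) (sum_le_sum hlight)
        _ ≤ t' * d * S1 + C.card * (d ^ t' * S2) := by
            rw [sum_const, sum_const, smul_eq_mul, smul_eq_mul]
            refine Nat.add_le_add (Nat.mul_le_mul_right _ ?_) (Nat.mul_le_mul_right _
              (card_le_card sdiff_subset))
            refine card_biUnion_le.trans ?_
            calc ∑ j, (B j).card ≤ ∑ _j : Fin t', d := sum_le_sum fun j _ => b2 j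
              _ = t' * d := by simp
    -- the sum
    have htot : (sp o (UU (P :: L)) f).card ≤
        Fintype.card Al ^ (X i ∩ P).card * (t' * d * S1) + Λ * (d ^ t' * S2) := by
      rw [UU_cons]
      refine (card_sp_le o P (UU L) f).trans ?_
      change ∑ u ∈ wd o P, (sp o (UU L) (sec f P u)).card ≤ _
      rw [← sum_fiberwise (wd o P) κ]
      refine (sum_le_sum fun a _ => hclass a).trans ?_
      rw [sum_add_distrib, sum_const, smul_eq_mul, card_univ, Fintype.card_fun, Fintype.card_coe,
        ← sum_mul]
      refine Nat.add_le_add_left (Nat.mul_le_mul_right _ ?_) _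
      have h5 : ∑ a : ({v // v ∈ X i ∩ P} → Al), ((wd o P).filter (fun u => κ u = a)).card =
          (wd o P).card := by
        rw [card_eq_sum_card_fiberwise (f := κ) (t := univ) (fun _ _ => mem_coe.2 (mem_univ _))]
      rw [h5]
      exact (card_wd o P).trans (hΛ P List.mem_cons_self)
    refine htot.trans ?_
    -- the exponents
    obtain ⟨j, hj, hje⟩ := exists_mem_eq_sup D hD fun i => (X i ∩ UU L).card
    have hcu : ∀ k, (X k ∩ UU (P :: L)).card = (X k ∩ P).card + (X k ∩ UU L).card := by
      intro k
      rw [UU_cons, inter_union_distrib_left, card_union_of_disjoint]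
      exact hPU.mono inter_subset_right inter_subset_right
    have hE1 : (X i ∩ P).card + (D.sup fun i => (X i ∩ UU L).card) ≤
        D.sup fun i => (X i ∩ UU (P :: L)).card := by
      rw [hje]
      refine le_trans ?_ (le_sup (f := fun i => (X i ∩ UU (P :: L)).card) hj)
      rw [hcu]
      have := hmin j hj
      omega
    have hE2 : ((D.erase i).sup fun i => (X i ∩ UU L).card) ≤
        D.sup fun i => (X i ∩ UU (P :: L)).card := by
      refine Finset.sup_le fun k hk => ?_
      refine le_trans ?_ (le_sup (f := fun i => (X i ∩ UU (P :: L)).card) (mem_of_mem_erase hk))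
      rw [hcu]
      omega
    obtain ⟨E, hE⟩ : ∃ E, E = D.sup fun i => (X i ∩ UU (P :: L)).card := ⟨_, rfl⟩
    rw [← hE] at hE1 hE2 ⊢
    rw [hS1, hS2, hr]
    show _ ≤ KK (t' + 1) (r + 1) (L.length + 1) d * Λ ^ (r + 1) * Fintype.card Al ^ E
    rw [KK, Nat.add_sub_cancel]
    have g1 : Fintype.card Al ^ (X i ∩ P).card *
        Fintype.card Al ^ (D.sup fun i => (X i ∩ UU L).card) ≤ Fintype.card Al ^ E := by
      rw [← pow_add]
      exact Nat.pow_le_pow_right hq hE1
    have g2 : Fintype.card Al ^ ((D.erase i).sup fun i => (X i ∩ UU L).card) ≤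
        Fintype.card Al ^ E := Nat.pow_le_pow_right hq hE2
    generalize Fintype.card Al ^ (X i ∩ P).card = q1 at *
    generalize Fintype.card Al ^ (D.sup fun i => (X i ∩ UU L).card) = q2 at *
    generalize Fintype.card Al ^ ((D.erase i).sup fun i => (X i ∩ UU L).card) = q3 at *
    generalize Fintype.card Al ^ E = q4 at *
    generalize KK (t' + 1) (r + 1) L.length d = k1
    generalize KK (t' + 1) r L.length (d ^ (t' + 1)) = k2
    calc q1 * (t' * d * (k1 * Λ ^ (r + 1) * q2)) + Λ * (d ^ t' * (k2 * Λ ^ r * q3))
        = t' * d * k1 * Λ ^ (r + 1) * (q1 * q2) + d ^ t' * k2 * Λ ^ (r + 1) * q3 := by ring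
      _ ≤ t' * d * k1 * Λ ^ (r + 1) * q4 + d ^ t' * k2 * Λ ^ (r + 1) * q4 := by gcongr
      _ = (t' * d * k1 + d ^ t' * k2) * Λ ^ (r + 1) * q4 := by ring

end Pool.Agent.N598.BT
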