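import Pool.Agent.TH700.PA.Defs
import Mathlib.Data.Finset.Union
import Mathlib.Algebra.Field.Defs

/-!
# Hypergraphs whose edges are given by tree tensor networks

The vertices are the strings of `m` symbols of an alphabet `α`.
-/

set_option autoImplicit false

open Finset

namespace Pool.Agent.N598.BT

open Pool.Agent.TH700.PA

variable {α : Type} {r m : ℕ}

/-- `F`, a set of `r`-tuples of strings of length `m`, is the support of a function which is computed
by a read-once tree tensor network of bond dimension at most `w` over some field `K`: its leaves read
the symbols `x i j` (the `j`th symbol of the `i`th string, `p = (i, j)`), every symbol at most once. -/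
def Piece (w : ℕ) (F : Set (Fin r → Fin m → α)) : Prop :=
  ∃ (K : Type) (_ : Field K) (W : Type) (_ : Fintype W) (T : Net K (Fin r × Fin m) α W) (a : W → K),
    Fintype.card W ≤ w ∧ (∀ p, T.reads p ≤ 1) ∧ F = {x | T.value a (fun p => x p.1 p.2) ≠ 0}

open Classical in
/-- The set `H` of sets of strings (the edges) is covered by `L` pieces of bond dimension at most
`w`: every member of a piece which consists of `r` different strings is an edge (with its vertices
in some order), and every edge occurs in some piece (in some order). Nothing is required of the
`r`-tuples in the pieces in which a string is repeated. -/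
def Covered (L w : ℕ) (r : ℕ) (H : Finset (Finset (Fin m → α))) : Prop :=
  ∃ F : Fin L → Set (Fin r → Fin m → α), (∀ l, Piece w (F l)) ∧
    (∀ l, ∀ x ∈ F l, Function.Injective x → univ.image x ∈ H) ∧
      ∀ h ∈ H, ∃ l, ∃ x ∈ F l, univ.image x = h

end Pool.Agent.N598.BT
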