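import Pool.Agent.N598.BT.Two

/-!
# Symmetric designs given by tree tensor networks
-/

set_option autoImplicit false

open Finset

namespace Pool.Agent.N598.BT

/-- The number of points is at most `k ^ 2 + 1` (count of flags, as in the starting file
`Pool/Agent/H607R2/BW/DES.lean`). -/
theorem points_le (v k lam : ℕ) (hv : 2 ≤ v) (hlam : 1 ≤ lam) (B : Fin v → Finset (Fin v))
    (hk : ∀ i, (B i).card = k)
    (hp : ∀ x y : Fin v, x ≠ y →
      (Finset.univ.filter (fun i => x ∈ B i ∧ y ∈ B i)).card = lam) :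
    v ≤ k * k + 1 := by
  classical
  have h1 : ∀ x, (Finset.univ.filter (fun i => x ∈ B i)).card * k
      = (Finset.univ.filter (fun i => x ∈ B i)).card + lam * (v - 1) := by
    intro x
    have e1 : ∑ y : Fin v, (Finset.univ.filter (fun i => x ∈ B i ∧ y ∈ B i)).card
        = (Finset.univ.filter (fun i => x ∈ B i)).card * k := by
      simp_rw [Finset.card_filter]
      rw [Finset.sum_comm, Finset.sum_mul]
      refine Finset.sum_congr rfl fun i _ => ?_
      by_cases hx : x ∈ B i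
      · simp [hx, hk i]
      · simp [hx]
    rw [← e1, ← Finset.add_sum_erase _ _ (Finset.mem_univ x)]
    congr 1
    · simp
    · rw [Finset.sum_congr rfl (g := fun _ => lam)]
      · simp [Finset.card_erase_of_mem, mul_comm]
      · intro y hy
        exact hp x y (Finset.ne_of_mem_erase hy).symm
  have hsum : ∑ x : Fin v, (Finset.univ.filter (fun i => x ∈ B i)).card = v * k := by
    simp_rw [Finset.card_filter]
    rw [Finset.sum_comm]
    rw [Finset.sum_congr rfl (g := fun _ => k)]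
    · simp
    · intro i _
      rw [← hk i]; simp
  have h2 : v * k * k = v * k + v * (lam * (v - 1)) := by
    have h3 : ∑ x : Fin v, (Finset.univ.filter (fun i => x ∈ B i)).card * k =
        ∑ x : Fin v, ((Finset.univ.filter (fun i => x ∈ B i)).card + lam * (v - 1)) :=
      Finset.sum_congr rfl (fun x _ => h1 x)
    rw [← Finset.sum_mul, Finset.sum_add_distrib, hsum] at h3
    simpa using h3
  have h4 : v * (k * k) = v * (k + lam * (v - 1)) := by
    rw [← mul_assoc, h2]; ring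
  have h5 : k * k = k + lam * (v - 1) := Nat.eq_of_mul_eq_mul_left (by omega) h4
  have h6 : 1 * (v - 1) ≤ lam * (v - 1) := Nat.mul_le_mul_right _ hlam
  omega

/-- the names of the incident pairs -/
def Inc {α : Type} {m v : ℕ} (B : Fin v → Finset (Fin v)) (p b : Fin v → Fin m → α) :
    Set (Fin 2 → Fin m → α) :=
  {x | ∃ i j, i ∈ B j ∧ x 0 = p i ∧ x 1 = b j}

theorem le_ncard_inc {α : Type} [Fintype α] {m v k : ℕ} (B : Fin v → Finset (Fin v))
    (p b : Fin v → Fin m → α) (hp : Function.Injective p) (hb : Function.Injective b)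
    (hk : ∀ i, (B i).card = k) : v * k ≤ (Inc B p b).ncard := by
  classical
  have h1 : (((univ : Finset (Fin v)).sigma B).image
      fun z : Σ _ : Fin v, Fin v => (![p z.2, b z.1] : Fin 2 → Fin m → α)).card = v * k := by
    rw [card_image_of_injective, card_sigma]
    · simp [hk]
    · rintro ⟨j, i⟩ ⟨j', i'⟩ h
      have e0 := congrFun h 0
      have e1 := congrFun h 1
      have e0' : i = i' := hp e0
      have e1' : j = j' := hb e1
      subst e0'
      subst e1'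
      rfl
  rw [← h1, ← Set.ncard_coe_finset]
  refine Set.ncard_le_ncard ?_ (Set.toFinite _)
  intro x hx
  rw [mem_coe, mem_image] at hx
  obtain ⟨⟨j, i⟩, hz, rfl⟩ := hx
  exact ⟨i, j, (mem_sigma.1 hz).2, rfl, rfl⟩

theorem no_biclique {α : Type} {m v lam : ℕ} (hlam : 1 ≤ lam) (B : Fin v → Finset (Fin v))
    (p b : Fin v → Fin m → α) (hp : Function.Injective p) (hb : Function.Injective b)
    (hl : ∀ x y : Fin v, x ≠ y →
      (Finset.univ.filter (fun i => x ∈ B i ∧ y ∈ B i)).card = lam)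
    {X Y : Fin (lam + 1) → Fin m → α} (hX : Function.Injective X) (hY : Function.Injective Y)
    (h : ∀ s s', ![X s, Y s'] ∈ Inc B p b) : False := by
  classical
  have hx : ∀ s, ∃ i, X s = p i := fun s => by
    obtain ⟨i, _, _, h0, _⟩ := h s 0
    exact ⟨i, h0⟩
  have hy : ∀ s, ∃ j, Y s = b j := fun s => by
    obtain ⟨_, j, _, _, h1⟩ := h 0 s
    exact ⟨j, h1⟩
  choose i hi using hx
  choose j hj using hy
  have hmem : ∀ s s', i s ∈ B (j s') := by
    intro s s'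
    obtain ⟨i', j', hm, h0, h1⟩ := h s s'
    have e0 : p (i s) = p i' := (hi s).symm.trans h0
    have e1 : b (j s') = b j' := (hj s').symm.trans h1
    rw [hp e0, hb e1]
    exact hm
  have hiinj : i (0 : Fin (lam + 1)) ≠ i (Fin.last lam) := by
    intro h2
    have h3 : X 0 = X (Fin.last lam) := by rw [hi, hi, h2]
    have h4 := congrArg Fin.val (hX h3)
    rw [Fin.val_last] at h4
    simp only [Fin.coe_ofNat_eq_mod, Nat.zero_mod] at h4
    omega
  have hjinj : Function.Injective j := by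
    intro s s' h2
    refine hY ?_
    rw [hj, hj, h2]
  have h5 := hl _ _ hiinj
  have h6 : (univ.image j) ⊆ univ.filter fun a => i 0 ∈ B a ∧ i (Fin.last lam) ∈ B a := by
    intro a ha
    obtain ⟨s, -, rfl⟩ := mem_image.1 ha
    exact mem_filter.2 ⟨mem_univ _, hmem _ _, hmem _ _⟩
  have h7 := card_le_card h6
  rw [card_image_of_injective _ hjinj, card_univ, Fintype.card_fin, h5] at h7
  omega

/-- Hall's conjecture for designs given by tree tensor networks. -/
theorem design_finite (lam : ℕ) (β : ℝ) (hlam : 1 ≤ lam) (hβ : β < 1 / 2) :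
    ∃ δ : ℝ, 0 < δ ∧ ∀ D : ℕ, ∃ N : ℕ, ∀ (v k : ℕ) (B : Fin v → Finset (Fin v)),
      (∀ i, (B i).card = k) →
      (∀ x y : Fin v, x ≠ y →
        (Finset.univ.filter (fun i => x ∈ B i ∧ y ∈ B i)).card = lam) →
      ∀ (α : Type) [Fintype α] [Nonempty α] (m L w : ℕ) (p b : Fin v → Fin m → α),
      Function.Injective p → Function.Injective b → Fintype.card α ^ m ≤ D * v →
      (Fintype.card α : ℝ) ≤ (v : ℝ) ^ δ → (L : ℝ) ≤ (v : ℝ) ^ β → (w : ℝ) ≤ (v : ℝ) ^ δ →
      UnionOf L w (Inc B p b) → v ≤ N := by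
  obtain ⟨ε, hε⟩ : ∃ ε : ℝ, ε = 1 / 2 - β := ⟨_, rfl⟩
  have hε0 : 0 < ε := by rw [hε]; linarith
  obtain ⟨δ₁, hδ₁, C, hC0, hC⟩ := asymptotic_rel (0 : Fin (lam + 1)) (ε / 4) (by positivity)
  obtain ⟨δ, hδ⟩ : ∃ δ, δ = min δ₁ (ε / 16) := ⟨_, rfl⟩
  have hδ0 : 0 < δ := by rw [hδ]; positivity
  have hδ1 : δ ≤ δ₁ := by rw [hδ]; exact min_le_left _ _
  have hδ2 : δ ≤ ε / 16 := by rw [hδ]; exact min_le_right _ _
  refine ⟨δ, hδ0, fun D => ?_⟩
  obtain ⟨X, hX⟩ : ∃ X : ℝ, X = C * (D : ℝ) ^ (1 + ε / 4) := ⟨_, rfl⟩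
  have hX0 : 0 ≤ X := by rw [hX]; positivity
  obtain ⟨N₀, hN₀⟩ := exists_nat_ge ((2 * X ^ 2) ^ (1 / ε))
  refine ⟨max 2 N₀, ?_⟩
  intro v k B hk hl α _ _ m L w p b hp hb hD hqv hL hw hU
  rcases Nat.lt_or_ge v 2 with hv | hv
  · exact le_trans hv.le (le_max_left _ _)
  refine le_trans ?_ (le_max_right _ _)
  have hv1 : (1 : ℝ) ≤ v := by exact_mod_cast (show 1 ≤ v by omega)
  have hv0 : (0 : ℝ) < v := by linarith
  have hvn : v ≤ Fintype.card α ^ m := by
    have := Fintype.card_le_of_injective p hp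
    rwa [Fintype.card_fin, Fintype.card_fun, Fintype.card_fin] at this
  have hvn' : (v : ℝ) ≤ (Fintype.card α : ℝ) ^ m := by exact_mod_cast hvn
  have hD' : (Fintype.card α : ℝ) ^ m ≤ D * v := by exact_mod_cast hD
  have hw' : (w : ℝ) ≤ ((Fintype.card α : ℝ) ^ m) ^ δ₁ := by
    refine hw.trans ?_
    calc (v : ℝ) ^ δ ≤ (v : ℝ) ^ δ₁ := Real.rpow_le_rpow_of_exponent_le hv1 hδ1
      _ ≤ ((Fintype.card α : ℝ) ^ m) ^ δ₁ := Real.rpow_le_rpow hv0.le hvn' hδ₁.le
  -- no biclique, so few incidences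
  have hle : ((Inc B p b).ncard : ℝ) ≤ C * L * (Fintype.card α : ℝ) ^ 4 *
      ((Fintype.card α : ℝ) ^ m) ^ (1 + ε / 4) := by
    by_contra hcon
    rw [not_le] at hcon
    obtain ⟨X', Y', h1, h2, h3⟩ := hC α m L w (Inc B p b) hU hw' hcon
    exact no_biclique hlam B p b hp hb hl h1 h2 h3
  have hinc : ((v * k : ℕ) : ℝ) ≤ (Inc B p b).ncard := by
    exact_mod_cast le_ncard_inc B p b hp hb hk
  have hpts := points_le v k lam hv hlam B hk hl
  -- upper bound
  have hup : ((v * k : ℕ) : ℝ) ≤ X * (v : ℝ) ^ (3 / 2 - ε / 2) := by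
    refine (hinc.trans hle).trans ?_
    have e1 : (Fintype.card α : ℝ) ^ 4 ≤ (v : ℝ) ^ (ε / 4) := by
      calc (Fintype.card α : ℝ) ^ 4 ≤ ((v : ℝ) ^ δ) ^ 4 := pow_le_pow_left₀ (by positivity) hqv 4
        _ = (v : ℝ) ^ (δ * 4) := by
            rw [← Real.rpow_natCast, ← Real.rpow_mul hv0.le]
            norm_num
        _ ≤ (v : ℝ) ^ (ε / 4) := Real.rpow_le_rpow_of_exponent_le hv1 (by linarith)
    have e2 : ((Fintype.card α : ℝ) ^ m) ^ (1 + ε / 4) ≤
        (D : ℝ) ^ (1 + ε / 4) * (v : ℝ) ^ (1 + ε / 4) := by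
      rw [← Real.mul_rpow (by positivity) hv0.le]
      exact Real.rpow_le_rpow (by positivity) hD' (by positivity)
    have e3 : (v : ℝ) ^ (3 / 2 - ε / 2) =
        (v : ℝ) ^ β * (v : ℝ) ^ (ε / 4) * (v : ℝ) ^ (1 + ε / 4) := by
      rw [← Real.rpow_add hv0, ← Real.rpow_add hv0]
      congr 1
      rw [hε]
      ring
    calc C * L * (Fintype.card α : ℝ) ^ 4 * ((Fintype.card α : ℝ) ^ m) ^ (1 + ε / 4)
        ≤ C * (v : ℝ) ^ β * (v : ℝ) ^ (ε / 4) *
          ((D : ℝ) ^ (1 + ε / 4) * (v : ℝ) ^ (1 + ε / 4)) := by gcongr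
      _ = X * (v : ℝ) ^ (3 / 2 - ε / 2) := by
          rw [e3, hX]
          ring
  -- squares
  have hsq : (v : ℝ) ^ 3 / 2 ≤ X ^ 2 * ((v : ℝ) ^ 3 * (v : ℝ) ^ (-ε)) := by
    have h1 : (v : ℝ) / 2 ≤ (k : ℝ) ^ 2 := by
      have h2 : (v : ℝ) ≤ k * k + 1 := by exact_mod_cast hpts
      have h3 : (2 : ℝ) ≤ v := by exact_mod_cast hv
      nlinarith
    have h4 : (v : ℝ) ^ 3 / 2 ≤ ((v * k : ℕ) : ℝ) ^ 2 := by
      push_cast
      calc (v : ℝ) ^ 3 / 2 = (v : ℝ) ^ 2 * ((v : ℝ) / 2) := by ring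
        _ ≤ (v : ℝ) ^ 2 * (k : ℝ) ^ 2 := mul_le_mul_of_nonneg_left h1 (by positivity)
        _ = ((v : ℝ) * k) ^ 2 := by ring
    refine h4.trans ((pow_le_pow_left₀ (by positivity) hup 2).trans (le_of_eq ?_))
    rw [mul_pow]
    congr 1
    rw [← Real.rpow_natCast _ 3, ← Real.rpow_add hv0, ← Real.rpow_natCast _ 2,
      ← Real.rpow_mul hv0.le]
    congr 1
    push_cast
    ring
  have hfin : (v : ℝ) ^ ε ≤ 2 * X ^ 2 := by
    have h1 : (v : ℝ) ^ ε * (v : ℝ) ^ (-ε) = 1 := by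
      rw [← Real.rpow_add hv0]
      simp
    have h2 : 0 < (v : ℝ) ^ (-ε) := Real.rpow_pos_of_pos hv0 _
    have h3 : 0 < (v : ℝ) ^ 3 := by positivity
    by_contra hcon
    rw [not_le] at hcon
    have h4 : 2 * X ^ 2 * (v : ℝ) ^ (-ε) < 1 := by
      rw [← h1]
      exact mul_lt_mul_of_pos_right hcon h2
    nlinarith
  have hlast : (v : ℝ) ≤ (2 * X ^ 2) ^ (1 / ε) := by
    calc (v : ℝ) = ((v : ℝ) ^ ε) ^ (1 / ε) := by
          rw [← Real.rpow_mul hv0.le, mul_one_div_cancel hε0.ne', Real.rpow_one]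
      _ ≤ (2 * X ^ 2) ^ (1 / ε) := Real.rpow_le_rpow (by positivity) hfin (by positivity)
  exact_mod_cast hlast.trans hN₀

end Pool.Agent.N598.BT
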