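import Pool.Agent.TH700.PA.Rank

/-!
# Grids in the supports of functions of small multislice rank

`f : (V → Al) → K` has rank at most `d` for the partition of the variables into `P` and the others,
for every member `P` of a list of disjoint sets. If the support of `f` has many elements then it
contains a large grid.
-/

set_option autoImplicit false

open Finset

namespace Pool.Agent.N598.BT

open Pool.Agent.TH700.PA

variable {V K Al I : Type}

/-- `pt` is a grid in `S` with the directions `D` and side length `t`: it is injective as a function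
of the coordinates in `D`, and the restriction of `pt a` to `X i` does not depend on the `i`th
coordinate, for `i ∈ D`. -/
structure Grid (X : I → Finset V) (t : ℕ) (D : Finset I) (S : Set (V → Al))
    (pt : (I → Fin t) → V → Al) : Prop where
  mem : ∀ a, pt a ∈ S
  inj : ∀ a b, pt a = pt b ↔ ∀ i ∈ D, a i = b i
  par : ∀ i ∈ D, ∀ a b, (∀ j, j ≠ i → a j = b j) → ∀ v ∈ X i, pt a v = pt b v

/-- the constants -/
def KK (t : ℕ) : ℕ → ℕ → ℕ → ℕ
  | 0, _, _ => 0
  | _ + 1, 0, _ => 1
  | r + 1, l + 1, d => (t - 1) * d * KK t (r + 1) l d + d ^ (t - 1) * KK t r l (d ^ t)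

theorem KK_le {t : ℕ} (ht : 1 ≤ t) : ∀ (l r d : ℕ), 1 ≤ d → KK t r l d ≤ (t * d ^ t ^ r) ^ l := by
  intro l
  induction l with
  | zero =>
    intro r d hd
    cases r with
    | zero => simp [KK]
    | succ r => simp [KK]
  | succ l ih =>
    intro r d hd
    cases r with
    | zero => simp [KK]
    | succ r =>
      rw [KK]
      have h1 := ih (r + 1) d hd
      have h2 := ih r (d ^ t) (Nat.one_le_pow _ _ hd)
      have e1 : (d ^ t) ^ t ^ r = d ^ t ^ (r + 1) := by
        rw [← pow_mul, pow_succ, mul_comm]
      rw [e1] at h2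
      have h3 : 1 ≤ t ^ (r + 1) := Nat.one_le_pow _ _ ht
      have h4 : d ≤ d ^ t ^ (r + 1) := by
        calc d = d ^ 1 := (pow_one d).symm
          _ ≤ _ := Nat.pow_le_pow_right hd h3
      have h5 : d ^ (t - 1) ≤ d ^ t ^ (r + 1) := by
        refine Nat.pow_le_pow_right hd ?_
        calc t - 1 ≤ t := Nat.sub_le _ _
          _ = t ^ 1 := (pow_one t).symm
          _ ≤ _ := Nat.pow_le_pow_right ht (by omega)
      generalize d ^ t ^ (r + 1) = A at *
      calc (t - 1) * d * KK t (r + 1) l d + d ^ (t - 1) * KK t r l (d ^ t)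
          ≤ (t - 1) * A * (t * A) ^ l + A * (t * A) ^ l := by
            gcongr
        _ = ((t - 1) + 1) * A * (t * A) ^ l := by ring
        _ = (t * A) ^ (l + 1) := by
            rw [Nat.sub_add_cancel ht]
            ring

section Ranks

variable [Field K]

theorem rk_mul {d d' : ℕ} {f g : (V → Al) → K} {A : Finset V} (hf : Rk d f A) (hg : Rk d' g A) :
    Rk (d * d') (fun z => f z * g z) A := by
  obtain ⟨J, i, g1, H1, h0, h1, h2, h3⟩ := hf
  obtain ⟨J', i', g1', H1', h0', h1', h2', h3'⟩ := hg
  refine ⟨J × J', inferInstance, fun z p => g1 z p.1 * g1' z p.2, fun z p => H1 z p.1 * H1' z p.2,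
    ?_, fun z z' h => ?_, fun z z' h => ?_, fun z => ?_⟩
  · rw [Fintype.card_prod]
    exact Nat.mul_le_mul h0 h0'
  · funext p
    simp only [h1 z z' h, h1' z z' h]
  · funext p
    simp only [h2 z z' h, h2' z z' h]
  · show f z * g z = _
    rw [h3, h3', Fintype.sum_mul_sum, Fintype.sum_prod_type]
    exact sum_congr rfl fun k _ => sum_congr rfl fun k' _ => by ring

theorem rk_one {A : Finset V} : Rk 1 (fun _ : V → Al => (1 : K)) A :=
  ⟨Unit, inferInstance, fun _ _ => 1, fun _ _ => 1, by simp, fun _ _ _ => rfl, fun _ _ _ => rfl,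
    fun z => by simp⟩

theorem rk_prod {d : ℕ} {A : Finset V} : ∀ {n : ℕ} (F : Fin n → (V → Al) → K), (∀ s, Rk d (F s) A) →
    Rk (d ^ n) (fun z => ∏ s, F s z) A := by
  intro n
  induction n with
  | zero =>
    intro F _
    simp only [univ_eq_empty, prod_empty, pow_zero]
    exact rk_one
  | succ n ih =>
    intro F hF
    have h1 := rk_mul (hF 0) (ih (fun s => F s.succ) fun s => hF s.succ)
    rw [pow_succ, mul_comm (d ^ n) d]
    simpa only [Fin.prod_univ_succ] using h1

/-- the section of `f` over the word `u` of `P` -/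
noncomputable def sec (f : (V → Al) → K) (P : Finset V) (u : V → Al) : (V → Al) → K :=
  fun z => f (mix P u z)

theorem rk_sec {d : ℕ} {f : (V → Al) → K} {P A : Finset V} (u : V → Al) (hf : Rk d f A) :
    Rk d (sec f P u) A := by
  obtain ⟨J, i, g, H, h0, h1, h2, h3⟩ := hf
  refine ⟨J, i, fun z => g (mix P u z), fun z => H (mix P u z), h0, fun z z' h => ?_,
    fun z z' h => ?_, fun z => h3 _⟩
  · refine h1 _ _ fun v hv => ?_
    unfold mix
    split_ifs
    · rfl
    · exact h v hv
  · refine h2 _ _ fun v hv => ?_
    unfold mix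
    split_ifs
    · rfl
    · exact h v hv

end Ranks

open Classical in
/-- the members of the support of `f` which agree with `o` outside `U` -/
noncomputable def sp [Fintype V] [Fintype Al] [Zero K] (o : V → Al) (U : Finset V)
    (f : (V → Al) → K) : Finset (V → Al) :=
  univ.filter fun z => (∀ v, v ∉ U → z v = o v) ∧ f z ≠ 0

theorem mem_sp [Fintype V] [Fintype Al] [Zero K] {o : V → Al} {U : Finset V}
    {f : (V → Al) → K} {z : V → Al} : z ∈ sp o U f ↔ (∀ v, v ∉ U → z v = o v) ∧ f z ≠ 0 := by
  simp [sp]

theorem mix_mem {A : Finset V} {x y : V → Al} {v : V} (h : v ∈ A) : mix A x y v = x v := by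
  unfold mix
  rw [if_pos h]

theorem mix_not {A : Finset V} {x y : V → Al} {v : V} (h : v ∉ A) : mix A x y v = y v := by
  unfold mix
  rw [if_neg h]

/-- the union of the members of a list -/
def UU [DecidableEq V] (L : List (Finset V)) : Finset V := L.foldr (· ∪ ·) ∅

theorem UU_cons [DecidableEq V] (P : Finset V) (L : List (Finset V)) : UU (P :: L) = P ∪ UU L := rfl

theorem mem_UU [DecidableEq V] {L : List (Finset V)} {v : V} : v ∈ UU L ↔ ∃ P ∈ L, v ∈ P := by
  induction L with
  | nil => simp [UU]
  | cons P L ih =>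
    rw [UU_cons, mem_union, ih]
    simp

/-- a grid without directions is a point -/
theorem grid_empty {X : I → Finset V} {t : ℕ} {S : Set (V → Al)} {z : V → Al} (hz : z ∈ S) :
    Grid X t ∅ S (fun _ => z) :=
  ⟨fun _ => hz, fun a b => by simp, fun i hi => absurd hi (notMem_empty i)⟩

/-- a grid of a section is a grid -/
theorem grid_sec [DecidableEq V] {X : I → Finset V} {t : ℕ} {D : Finset I} {o : V → Al}
    [Field K] {f : (V → Al) → K} {P U : Finset V} (hPU : Disjoint P U) {u : V → Al}
    {pt : (I → Fin t) → V → Al}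
    (h : Grid X t D {z | (∀ v, v ∉ U → z v = o v) ∧ sec f P u z ≠ 0} pt) :
    Grid X t D {z | (∀ v, v ∉ P ∪ U → z v = o v) ∧ f z ≠ 0} (fun a => mix P u (pt a)) := by
  refine ⟨fun a => ⟨fun v hv => ?_, (h.mem a).2⟩, fun a b => ?_, fun i hi a b hab v hv => ?_⟩
  · rw [mem_union, not_or] at hv
    rw [mix_not hv.1]
    exact (h.mem a).1 v hv.2
  · rw [← h.inj a b]
    constructor
    · intro he
      funext v
      by_cases hv : v ∈ P
      · rw [(h.mem a).1 v (disjoint_left.1 hPU hv), (h.mem b).1 v (disjoint_left.1 hPU hv)]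
      · have := congrFun he v
        simp only [mix_not hv] at this
        exact this
    · intro he
      simp only [he]
  · by_cases hvP : v ∈ P
    · simp only [mix_mem hvP]
    · simp only [mix_not hvP]
      exact h.par i hi a b hab v hv

/-- a grid of a product of sections over words with the same restriction to `X i` gives a grid with
one more direction -/
theorem grid_step [DecidableEq V] [DecidableEq I] {X : I → Finset V} {t : ℕ} {D : Finset I}
    {i : I} (hi : i ∈ D) {o : V → Al} [Field K] {f : (V → Al) → K} {P U : Finset V}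
    (hPU : Disjoint P U) (w : Fin t → V → Al) (hw : ∀ s v, v ∉ P → w s v = o v)
    (hinj : Function.Injective w) (hX : ∀ s s' v, v ∈ X i → v ∈ P → w s v = w s' v)
    {pt : (I → Fin t) → V → Al}
    (h : Grid X t (D.erase i)
      {z | (∀ v, v ∉ U → z v = o v) ∧ (∏ s, sec f P (w s) z) ≠ 0} pt) :
    Grid X t D {z | (∀ v, v ∉ P ∪ U → z v = o v) ∧ f z ≠ 0} (fun a => mix P (w (a i)) (pt a)) := by
  refine ⟨fun a => ⟨fun v hv => ?_, ?_⟩, fun a b => ?_, fun j hj a b hab v hv => ?_⟩
  · rw [mem_union, not_or] at hv
    rw [mix_not hv.1]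
    exact (h.mem a).1 v hv.2
  · have h1 := (h.mem a).2
    rw [prod_ne_zero_iff] at h1
    exact h1 (a i) (mem_univ _)
  · constructor
    · intro he
      have h1 : w (a i) = w (b i) := by
        funext v
        by_cases hv : v ∈ P
        · have := congrFun he v
          simp only [mix_mem hv] at this
          exact this
        · rw [hw _ _ hv, hw _ _ hv]
      have h2 : pt a = pt b := by
        funext v
        by_cases hv : v ∈ P
        · rw [(h.mem a).1 v (disjoint_left.1 hPU hv), (h.mem b).1 v (disjoint_left.1 hPU hv)]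
        · have := congrFun he v
          simp only [mix_not hv] at this
          exact this
      intro j hj
      by_cases hji : j = i
      · subst hji
        exact hinj h1
      · exact (h.inj a b).1 h2 j (mem_erase.2 ⟨hji, hj⟩)
    · intro hab
      have h2 : pt a = pt b := (h.inj a b).2 fun j hj => hab j (mem_of_mem_erase hj)
      simp only [h2, hab i hi]
  · by_cases hji : j = i
    · subst hji
      have h2 : pt a = pt b := (h.inj a b).2 fun k hk => hab k (ne_of_mem_erase hk)
      by_cases hvP : v ∈ P
      · simp only [mix_mem hvP]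
        exact hX _ _ v hv hvP
      · simp only [mix_not hvP, h2]
    · have h1 : a i = b i := hab i (fun h' => hji h'.symm)
      by_cases hvP : v ∈ P
      · simp only [mix_mem hvP, h1]
      · simp only [mix_not hvP]
        exact h.par j (mem_erase.2 ⟨hji, hj⟩) a b hab v hv

end Pool.Agent.N598.BT
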