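import Pool.Agent.TH700.PA.Parts
import Pool.Agent.N598.BT.Count
import Pool.Agent.N598.BT.Defs
import Mathlib.Data.Fintype.Perm
import Mathlib.Analysis.SpecialFunctions.Pow.Real

/-!
# Sparse configurations in hypergraphs given by tree tensor networks
-/

set_option autoImplicit false

open Finset

namespace Pool.Agent.N598.BT

open Pool.Agent.TH700.PA

section Box

variable {V K Al : Type}

open Classical in
/-- the indicator function of a box -/
noncomputable def bx (K : Type) [Field K] (A : V → Al → Prop) (z : V → Al) : K :=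
  if ∀ v, A v (z v) then 1 else 0

theorem rk_bx [Field K] (A : V → Al → Prop) (P : Finset V) : Rk 1 (bx K A) P := by
  classical
  refine ⟨Unit, inferInstance, fun z _ => if ∀ v ∈ P, A v (z v) then 1 else 0,
    fun z _ => if ∀ v, v ∉ P → A v (z v) then 1 else 0, by simp, fun z z' h => ?_, fun z z' h => ?_,
    fun z => ?_⟩
  · have : (∀ v ∈ P, A v (z v)) ↔ ∀ v ∈ P, A v (z' v) :=
      forall_congr' fun v => forall_congr' fun hv => by rw [h v hv]
    funext _
    simp only [this]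
  · have : (∀ v, v ∉ P → A v (z v)) ↔ ∀ v, v ∉ P → A v (z' v) :=
      forall_congr' fun v => forall_congr' fun hv => by rw [h v hv]
    funext _
    simp only [this]
  · have : (∀ v, A v (z v)) ↔ (∀ v ∈ P, A v (z v)) ∧ ∀ v, v ∉ P → A v (z v) :=
      ⟨fun h => ⟨fun v _ => h v, fun v _ => h v⟩, fun h v => by
        by_cases hv : v ∈ P
        · exact h.1 v hv
        · exact h.2 v hv⟩
    rw [Fintype.sum_unique]
    unfold bx
    beta_reduce
    by_cases h1 : ∀ v ∈ P, A v (z v)
    · by_cases h2 : ∀ v, v ∉ P → A v (z v)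
      · rw [if_pos (this.2 ⟨h1, h2⟩), if_pos h1, if_pos h2, one_mul]
      · rw [if_neg fun h => h2 (this.1 h).2, if_neg h2, mul_zero]
    · rw [if_neg fun h => h1 (this.1 h).1, if_neg h1, zero_mul]

theorem bx_mul_ne [Field K] {A : V → Al → Prop} {z : V → Al} {s : K} :
    s * bx K A z ≠ 0 ↔ s ≠ 0 ∧ ∀ v, A v (z v) := by
  classical
  unfold bx
  by_cases h : ∀ v, A v (z v)
  · simp [h]
  · simp [h]

end Box

variable {K α W : Type} {r m : ℕ}

/-- a read-once network whose support has many elements in a box has a grid there -/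
theorem net_grid [Field K] [Fintype α] [Nonempty α] [Fintype W] {w k t θ : ℕ}
    (ht : 1 ≤ t) (hθ : 1 ≤ θ) (T : Net K (Fin r × Fin m) α W) (a : W → K) (hw : Fintype.card W ≤ w)
    (h1 : ∀ p, T.reads p ≤ 1) (hk : 2 * (r * m) + θ ≤ θ * k) (A : Fin r × Fin m → α → Prop)
    (hbig : (t * (w ^ 3) ^ t ^ r) ^ k * (Fintype.card α ^ (2 * θ)) ^ r * Fintype.card α ^ m <
      Nat.card {z : Fin r × Fin m → α // T.value a z ≠ 0 ∧ ∀ v, A v (z v)}) :
    ∃ pt, Grid (fun i : Fin r => univ.filter fun p : Fin r × Fin m => p.1 = i) t univ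
      {z | T.value a z ≠ 0 ∧ ∀ v, A v (z v)} pt := by
  classical
  have hq : 1 ≤ Fintype.card α := Fintype.card_pos
  obtain ⟨o⟩ : Nonempty (Fin r × Fin m → α) := inferInstance
  -- the messages
  rcases isEmpty_or_nonempty W with hW | hW
  · exfalso
    have : ∀ z, T.value a z = 0 := fun z => by
      unfold Net.value
      rw [univ_eq_empty, sum_empty]
    have h2 : Nat.card {z : Fin r × Fin m → α // T.value a z ≠ 0 ∧ ∀ v, A v (z v)} = 0 := by
      have : IsEmpty {z : Fin r × Fin m → α // T.value a z ≠ 0 ∧ ∀ v, A v (z v)} :=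
        ⟨fun z => z.2.1 (this z.1)⟩
      exact Nat.card_of_isEmpty
    omega
  have hw1 : 1 ≤ w := le_trans Fintype.card_pos hw
  obtain ⟨T', g1, g2, -⟩ := exists_ext T h1
  have hval : ∀ z, T'.value a z = T.value a z := fun z => by
    unfold Net.value
    rw [g2]
  have hR : ∀ A ∈ cutsv T', Rk w (fun z => T.value a z) A := by
    intro A hA
    have h2 := rk_mono hw (rk_of_cut (cutsv_cut T' a (fun v => (g1 v).le) A hA))
    simpa only [hval] using h2
  obtain ⟨P, q1, q2, q3⟩ := exists_parts hw1 (univ : Finset (Fin r × Fin m)) hθ T' g1 hR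
    (t := k) (by rw [card_univ, Fintype.card_prod, Fintype.card_fin, Fintype.card_fin]; exact hk)
  by_contra hno
  push Not at hno
  have hU : UU (List.ofFn P) = univ := by
    rw [eq_univ_iff_forall]
    intro v
    obtain ⟨j, hj⟩ := q3 v
    exact mem_UU.2 ⟨P j, (List.mem_ofFn' P _).2 ⟨j, rfl⟩, hj⟩
  have hmain := main (K := K) (fun i : Fin r => univ.filter fun p : Fin r × Fin m => p.1 = i) ht o
    (Λ := Fintype.card α ^ (2 * θ)) (Nat.one_le_pow _ _ hq) (List.ofFn P) univ (w ^ 3)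
    (fun z => T.value a z * bx K A z) ?_ ?_ ?_ ?_
  · rw [hU, List.length_ofFn, card_univ, Fintype.card_fin] at hmain
    have h3 : (sp o univ fun z => T.value a z * bx K A z).card =
        Nat.card {z : Fin r × Fin m → α // T.value a z ≠ 0 ∧ ∀ v, A v (z v)} := by
      rw [Nat.card_eq_fintype_card, Fintype.card_subtype]
      congr 1
      ext z
      rw [mem_sp, bx_mul_ne, mem_filter]
      simp
    rw [h3] at hmain
    have h4 : (univ.sup fun i : Fin r =>
        ((univ.filter fun p : Fin r × Fin m => p.1 = i) ∩ univ).card) ≤ m := by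
      refine Finset.sup_le fun i _ => ?_
      rw [inter_univ]
      have : (univ.filter fun p : Fin r × Fin m => p.1 = i) = ({i} : Finset (Fin r)) ×ˢ univ := by
        ext p
        rw [mem_filter, mem_product, mem_singleton]
        exact ⟨fun h => ⟨h.2, mem_univ _⟩, fun h => ⟨mem_univ _, h.1⟩⟩
      rw [this, card_product]
      simp
    have h5 := KK_le ht k r (w ^ 3) (Nat.one_le_pow _ _ hw1)
    have h6 : Nat.card {z : Fin r × Fin m → α // T.value a z ≠ 0 ∧ ∀ v, A v (z v)} ≤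
        (t * (w ^ 3) ^ t ^ r) ^ k * (Fintype.card α ^ (2 * θ)) ^ r * Fintype.card α ^ m := by
      refine hmain.trans ?_
      exact Nat.mul_le_mul (Nat.mul_le_mul_right _ h5) (Nat.pow_le_pow_right hq h4)
    omega
  · rw [List.pairwise_ofFn]
    intro i j hij
    exact q2 i j (ne_of_lt hij)
  · intro Q hQ
    obtain ⟨j, rfl⟩ := (List.mem_ofFn' P _).1 hQ
    have h2 := rk_mul (q1 j).2.1 (rk_bx (K := K) A (P j))
    have e : w * (w * w) * 1 = w ^ 3 := by ring
    rwa [e] at h2
  · intro Q hQ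
    obtain ⟨j, rfl⟩ := (List.mem_ofFn' P _).1 hQ
    have h2 := (q1 j).2.2
    rw [univ_inter] at h2
    exact Nat.pow_le_pow_right hq h2
  · intro pt hpt
    refine hno pt ?_
    rw [hU] at hpt
    exact ⟨fun a => bx_mul_ne.1 (hpt.mem a).2, hpt.inj, hpt.par⟩

/-- the strings with prescribed separating symbols -/
def Sep (p : Fin r → Fin r → Fin m) (c : Fin r → Fin r → α) (v : Fin r × Fin m) (s : α) : Prop :=
  ∀ b', v.1 ≠ b' → p v.1 b' = v.2 → s = c v.1 b'

/-- the data separate the classes -/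
def Valid (p : Fin r → Fin r → Fin m) (c : Fin r → Fin r → α) : Prop :=
  ∀ b b', b ≠ b' → p b b' = p b' b ∧ c b b' ≠ c b' b

/-- strings of different classes are different -/
theorem sep_ne {p : Fin r → Fin r → Fin m} {c : Fin r → Fin r → α} (hv : Valid p c)
    {z z' : Fin r × Fin m → α} (hz : ∀ v, Sep p c v (z v)) (hz' : ∀ v, Sep p c v (z' v))
    {b b' : Fin r} (h : (fun j => z (b, j)) = fun j => z' (b', j)) : b = b' := by
  by_contra hne
  have h1 := hz (b, p b b') b' hne rfl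
  have h2 := hz' (b', p b' b) b (fun h => hne h.symm) rfl
  have h3 := congrFun h (p b b')
  rw [h1, (hv b b' hne).1, h2] at h3
  exact (hv b b' hne).2 h3

theorem exists_sep {x : Fin r → Fin m → α} (hx : Function.Injective x) (hm : 0 < m) :
    ∃ (p : Fin r → Fin r → Fin m) (c : Fin r → Fin r → α), Valid p c ∧
      ∀ v : Fin r × Fin m, Sep p c v (x v.1 v.2) := by
  have h1 : ∀ b b' : Fin r, ∃ q : Fin m, b ≠ b' → x b q ≠ x b' q := by
    intro b b'
    by_cases hb : b = b'
    · exact ⟨⟨0, hm⟩, fun h => absurd hb h⟩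
    · obtain ⟨q, hq⟩ := Function.ne_iff.1 (fun h => hb (hx h) : x b ≠ x b')
      exact ⟨q, fun _ => hq⟩
  choose q hq using h1
  refine ⟨fun b b' => if b < b' then q b b' else q b' b,
    fun b b' => x b (if b < b' then q b b' else q b' b), ?_, ?_⟩
  · intro b b' hbb
    rcases lt_trichotomy b b' with h | h | h
    · have h' : ¬ b' < b := not_lt.2 h.le
      simp only [h, h', if_true, if_false]
      exact ⟨trivial, hq b b' hbb⟩
    · exact absurd h hbb
    · have h' : ¬ b < b' := not_lt.2 h.le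
      simp only [h, h', if_true, if_false]
      exact ⟨trivial, fun h2 => hq b' b hbb.symm h2.symm⟩
  · intro v b' _ hv
    simp only at hv ⊢
    rw [← hv]

open Classical in
/-- the edges of a grid -/
theorem grid_edges {t : ℕ} (s0 : Fin t) {p : Fin r → Fin r → Fin m} {c : Fin r → Fin r → α}
    (hv : Valid p c) {S : Set (Fin r × Fin m → α)} (hSep : ∀ z ∈ S, ∀ v, Sep p c v (z v))
    {pt : (Fin r → Fin t) → Fin r × Fin m → α}
    (h : Grid (fun i : Fin r => univ.filter fun p : Fin r × Fin m => p.1 = i) t univ S pt)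
    {H : Finset (Finset (Fin m → α))}
    (hS : ∀ z ∈ S, univ.image (fun i j => z (i, j)) ∈ H) (𝒯 : Finset (Fin r → Fin t)) :
    ∃ G ⊆ H, G.card = 𝒯.card ∧ (G.biUnion id).card ≤
      ∑ b, (𝒯.image fun τ => Function.update τ b s0).card := by
  let E : (Fin r → Fin t) → Finset (Fin m → α) := fun a => univ.image (fun i j => pt a (i, j))
  have hE : ∀ a, E a ∈ H := fun a => hS _ (h.mem a)
  refine ⟨𝒯.image E, ?_, ?_, ?_⟩
  · intro e he
    obtain ⟨a, -, rfl⟩ := mem_image.1 he
    exact hE a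
  · refine card_image_of_injOn fun a _ b _ hab => ?_
    have h3 : pt a = pt b := by
      funext v
      obtain ⟨i, j⟩ := v
      have h4 : (fun j => pt a (i, j)) ∈ E b := by
        rw [← hab]
        exact mem_image_of_mem _ (mem_univ i)
      obtain ⟨i', -, h5⟩ := mem_image.1 h4
      have h6 := sep_ne hv (hSep _ (h.mem b)) (hSep _ (h.mem a)) h5
      subst h6
      exact (congrFun h5 j).symm
    funext i
    exact (h.inj a b).1 h3 i (mem_univ i)
  · -- the vertices
    have hsub : (𝒯.image E).biUnion id ⊆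
        univ.biUnion fun i : Fin r => (𝒯.image fun τ => Function.update τ i s0).image
          fun a : Fin r → Fin t => fun j => pt a (i, j) := by
      intro v hv
      rw [mem_biUnion] at hv
      obtain ⟨e, he, hve⟩ := hv
      obtain ⟨a, ha, rfl⟩ := mem_image.1 he
      obtain ⟨i, -, rfl⟩ := mem_image.1 (show v ∈ univ.image _ from hve)
      refine mem_biUnion.2 ⟨i, mem_univ i, mem_image.2 ⟨_, mem_image_of_mem _ ha, ?_⟩⟩
      funext j
      exact h.par i (mem_univ i) _ _ (fun k hk => Function.update_of_ne hk _ _) (i, j)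
        (mem_filter.2 ⟨mem_univ _, rfl⟩)
    exact (card_le_card hsub).trans (card_biUnion_le.trans (sum_le_sum fun i _ => card_image_le))

open Classical in
/-- The explicit bound. -/
theorem explicit [Fintype α] [Nonempty α] {L w k t θ : ℕ} (hm : 0 < m) (s0 : Fin t) (hθ : 1 ≤ θ)
    (hk : 2 * (r * m) + θ ≤ θ * k) {H : Finset (Finset (Fin m → α))} (hH : ∀ h ∈ H, h.card = r)
    (hcov : Covered L w r H)
    (hbig : L * (m ^ r) ^ r * (Fintype.card α ^ r) ^ r * ((t * (w ^ 3) ^ t ^ r) ^ k *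
      (Fintype.card α ^ (2 * θ)) ^ r * Fintype.card α ^ m) < H.card) (𝒯 : Finset (Fin r → Fin t)) :
    ∃ G ⊆ H, G.card = 𝒯.card ∧ (G.biUnion id).card ≤
      ∑ b, (𝒯.image fun τ => Function.update τ b s0).card := by
  obtain ⟨B, hB⟩ : ∃ B, B = (t * (w ^ 3) ^ t ^ r) ^ k * (Fintype.card α ^ (2 * θ)) ^ r *
      Fintype.card α ^ m := ⟨_, rfl⟩
  rw [← hB] at hbig
  obtain ⟨F, hF1, hF2, hF3⟩ := hcov
  let D := Fin L × (Fin r → Fin r → Fin m) × (Fin r → Fin r → α)
  let X : D → Finset (Fin r → Fin m → α) := fun d =>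
    if Valid d.2.1 d.2.2 then
      univ.filter fun x => x ∈ F d.1 ∧ ∀ v : Fin r × Fin m, Sep d.2.1 d.2.2 v (x v.1 v.2)
    else ∅
  have hsub : H ⊆ univ.biUnion fun d : D => (X d).image fun x => univ.image x := by
    intro h hh
    obtain ⟨l, x, hx, hxh⟩ := hF3 h hh
    have hinj : Function.Injective x := by
      have h2 : (univ.image x).card = (univ : Finset (Fin r)).card := by
        rw [hxh, hH h hh, card_univ, Fintype.card_fin]
      intro i i' hii
      exact (card_image_iff.1 h2) (mem_coe.2 (mem_univ i)) (mem_coe.2 (mem_univ i')) hii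
    obtain ⟨p, c, hv, hs⟩ := exists_sep hinj hm
    refine mem_biUnion.2 ⟨(l, p, c), mem_univ _, mem_image.2 ⟨x, ?_, hxh⟩⟩
    simp only [X, if_pos hv]
    exact mem_filter.2 ⟨mem_univ x, hx, hs⟩
  have hcD : Fintype.card D = L * (m ^ r) ^ r * (Fintype.card α ^ r) ^ r := by
    simp only [D, Fintype.card_prod, Fintype.card_fun, Fintype.card_fin]
    ring
  have hex : ∃ d : D, B < (X d).card := by
    by_contra hcon
    push Not at hcon
    have h1 : H.card ≤ Fintype.card D * B := by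
      refine (card_le_card hsub).trans (card_biUnion_le.trans ?_)
      calc ∑ d : D, ((X d).image fun x => univ.image x).card ≤ ∑ _d : D, B :=
            sum_le_sum fun d _ => card_image_le.trans (hcon d)
        _ = Fintype.card D * B := by rw [sum_const, smul_eq_mul, card_univ]
    rw [hcD] at h1
    omega
  obtain ⟨⟨l, p, c⟩, hl⟩ := hex
  have hv : Valid p c := by
    by_contra hv
    simp only [X, if_neg hv, card_empty] at hl
    omega
  simp only [X, if_pos hv] at hl
  obtain ⟨K, _, W, _, T, a, hW, hT, hFl⟩ := hF1 l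
  have hcard : (univ.filter fun x : Fin r → Fin m → α => x ∈ F l ∧
      ∀ v : Fin r × Fin m, Sep p c v (x v.1 v.2)).card =
      Nat.card {z : Fin r × Fin m → α // T.value a z ≠ 0 ∧ ∀ v, Sep p c v (z v)} := by
    rw [Nat.card_eq_fintype_card, Fintype.card_subtype]
    refine card_bij' (fun x _ => fun p => x p.1 p.2) (fun z _ => fun i j => z (i, j)) ?_ ?_ ?_ ?_
    · intro x hx
      rw [mem_filter] at hx ⊢
      refine ⟨mem_univ _, ?_, hx.2.2⟩
      have := hx.2.1
      rw [hFl] at this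
      exact this
    · intro z hz
      rw [mem_filter] at hz ⊢
      refine ⟨mem_univ _, ?_, hz.2.2⟩
      rw [hFl]
      exact hz.2.1
    · intro x _
      rfl
    · intro z _
      rfl
  rw [hcard, hB] at hl
  have ht : 1 ≤ t := by
    have := s0.2
    omega
  obtain ⟨pt, hpt⟩ := net_grid ht hθ T a hW hT hk (Sep p c) hl
  refine grid_edges s0 hv (fun z hz => hz.2) hpt (fun z hz => ?_) 𝒯
  refine hF2 l (fun i j => z (i, j)) ?_ ?_
  · rw [hFl]
    exact hz.1
  · intro i i' hii
    exact sep_ne hv hz.2 hz.2 hii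

/-- powers of the length of the names -/
theorem pow_len (s : ℕ) (ε : ℝ) (hε : 0 < ε) : ∃ C : ℝ, 0 < C ∧ ∀ m : ℕ,
    (m : ℝ) ^ s ≤ C * ((2 : ℝ) ^ m) ^ ε := by
  have hl : 0 < Real.log 2 := Real.log_pos (by norm_num)
  obtain ⟨u, hu⟩ : ∃ u : ℝ, u = ε * Real.log 2 / (s + 1) := ⟨_, rfl⟩
  have hu0 : 0 < u := by rw [hu]; positivity
  refine ⟨(1 / u) ^ s, by positivity, fun m => ?_⟩
  have h1 : (m : ℝ) ≤ 1 / u * Real.exp (u * m) := by
    have := Real.add_one_le_exp (u * (m : ℝ))
    rw [one_div, inv_mul_eq_div, le_div_iff₀ hu0]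
    linarith
  calc (m : ℝ) ^ s ≤ (1 / u * Real.exp (u * m)) ^ s := pow_le_pow_left₀ (Nat.cast_nonneg m) h1 s
    _ = (1 / u) ^ s * Real.exp (s * (u * m)) := by rw [mul_pow, Real.exp_nat_mul]
    _ ≤ (1 / u) ^ s * ((2 : ℝ) ^ m) ^ ε := by
        refine mul_le_mul_of_nonneg_left ?_ (by positivity)
        have h2 : ((2 : ℝ) ^ m) ^ ε = Real.exp (Real.log 2 * (m * ε)) := by
          rw [← Real.rpow_natCast, ← Real.rpow_mul (by norm_num),
            Real.rpow_def_of_pos (by norm_num)]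
        rw [h2]
        apply Real.exp_le_exp.2
        have h3 : (s : ℝ) * u ≤ ε * Real.log 2 := by
          rw [hu, mul_div_assoc', div_le_iff₀ (by positivity)]
          nlinarith [mul_pos hε hl]
        have h4 : (0 : ℝ) ≤ m := Nat.cast_nonneg m
        nlinarith

open Classical in
/-- The asymptotic bound. -/
theorem asymptotic {r t : ℕ} (hr : 2 ≤ r) (s0 : Fin t) (η : ℝ) (hη : 0 < η) :
    ∃ δ : ℝ, 0 < δ ∧ ∃ C : ℝ, ∀ (α : Type) [Fintype α] [Nonempty α] (m L w : ℕ)
      (H : Finset (Finset (Fin m → α))), (∀ h ∈ H, h.card = r) → Covered L w r H →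
      (w : ℝ) ≤ ((Fintype.card α : ℝ) ^ m) ^ δ →
      C * L * (Fintype.card α : ℝ) ^ (r * (r + 2)) * ((Fintype.card α : ℝ) ^ m) ^ (1 + η) < H.card →
      ∀ 𝒯 : Finset (Fin r → Fin t), ∃ G ⊆ H, G.card = 𝒯.card ∧ (G.biUnion id).card ≤
        ∑ b, (𝒯.image fun τ => Function.update τ b s0).card := by
  obtain ⟨k0, hk0⟩ := exists_nat_ge (12 * (r : ℝ) ^ 2 / η)
  obtain ⟨s, hs⟩ : ∃ s : ℕ, s = k0 + 1 := ⟨_, rfl⟩
  have hs1 : 1 ≤ s := by omega
  have hsr : (0 : ℝ) < s := by exact_mod_cast hs1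
  have hs2 : 12 * (r : ℝ) ^ 2 ≤ η * s := by
    have h1 : 12 * (r : ℝ) ^ 2 / η ≤ s := hk0.trans (by rw [hs]; push_cast; linarith)
    rw [div_le_iff₀ hη] at h1
    linarith
  have ht1 : 1 ≤ t := by
    have := s0.2
    omega
  have ht1' : (0 : ℝ) < t := by exact_mod_cast ht1
  have hT : (0 : ℝ) < (t : ℝ) ^ r := by positivity
  obtain ⟨C₀, hC₀, hlen⟩ := pow_len (r * r) (η / 3) (by positivity)
  refine ⟨η / (9 * (s + 1) * (t : ℝ) ^ r), by positivity, C₀ * (t : ℝ) ^ (s + 1), ?_⟩
  intro α _ _ m L w H hH hcov hw hbig 𝒯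
  have hq : 1 ≤ Fintype.card α := Fintype.card_pos
  have hq' : (1 : ℝ) ≤ Fintype.card α := by exact_mod_cast hq
  -- there are at least two vertices
  have hHne : ∃ h ∈ H, h.card = r := by
    have h0 : (0 : ℝ) < H.card := lt_of_le_of_lt (by positivity) hbig
    have h1 : 0 < H.card := by exact_mod_cast h0
    obtain ⟨h, hh⟩ := card_pos.1 h1
    exact ⟨h, hh, hH h hh⟩
  obtain ⟨h₀, hh₀, hc₀⟩ := hHne
  have htwo : 1 < Fintype.card (Fin m → α) := by
    have := card_le_univ h₀
    omega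
  have hm : 0 < m := by
    by_contra hcon
    have hm0 : m = 0 := by omega
    subst hm0
    simp at htwo
  have hq2 : 2 ≤ Fintype.card α := by
    by_contra hcon
    have h1 : Fintype.card α = 1 := by omega
    rw [Fintype.card_fun, h1] at htwo
    simp at htwo
  have hq2' : (2 : ℝ) ≤ Fintype.card α := by exact_mod_cast hq2
  obtain ⟨θ, hθ⟩ : ∃ θ, θ = 2 * (r * m) / s + 1 := ⟨_, rfl⟩
  have hθ1 : 1 ≤ θ := by
    rw [hθ]
    exact Nat.le_add_left 1 _
  have hθ2 : 2 * (r * m) ≤ θ * s := by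
    have := Nat.lt_mul_div_succ (2 * (r * m)) (show 0 < s by omega)
    rw [hθ]
    calc 2 * (r * m) ≤ s * (2 * (r * m) / s + 1) := this.le
      _ = (2 * (r * m) / s + 1) * s := mul_comm _ _
  have hk : 2 * (r * m) + θ ≤ θ * (s + 1) := by
    rw [mul_add, mul_one]
    omega
  set n : ℝ := (Fintype.card α : ℝ) ^ m with hn
  have hn1 : 1 ≤ n := one_le_pow₀ hq'
  have hn0 : 0 < n := by linarith
  -- the powers
  have hθr : (θ : ℝ) ≤ 2 * (r * m) / s + 1 := by
    rw [hθ]
    push_cast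
    have : ((2 * (r * m) / s : ℕ) : ℝ) ≤ ((2 * (r * m) : ℕ) : ℝ) / s := Nat.cast_div_le
    push_cast at this
    linarith
  have hp1 : (((Fintype.card α : ℝ) ^ (2 * θ)) ^ r) ≤ (Fintype.card α : ℝ) ^ (2 * r) * n ^ (η / 3) := by
    rw [← pow_mul, hn, ← Real.rpow_natCast _ (2 * θ * r), ← Real.rpow_natCast _ (2 * r),
      ← Real.rpow_natCast _ m, ← Real.rpow_mul (by linarith), ← Real.rpow_add (by linarith)]
    refine Real.rpow_le_rpow_of_exponent_le hq' ?_
    push_cast
    have h1 : 2 * (θ : ℝ) * r ≤ 2 * (2 * (r * m) / s + 1) * r := by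
      have : (0 : ℝ) ≤ r := by positivity
      nlinarith
    have h2 : 2 * (2 * ((r : ℝ) * m) / s) * r ≤ m * (η / 3) := by
      rw [show 2 * (2 * ((r : ℝ) * m) / s) * r = (4 * r ^ 2 * m) / s by ring, div_le_iff₀ hsr]
      have : (0 : ℝ) ≤ m := by positivity
      nlinarith
    nlinarith
  have hp2 : (w : ℝ) ^ (3 * t ^ r * (s + 1)) ≤ n ^ (η / 3) := by
    calc (w : ℝ) ^ (3 * t ^ r * (s + 1))
        ≤ (n ^ (η / (9 * (s + 1) * (t : ℝ) ^ r))) ^ (3 * t ^ r * (s + 1)) :=
          pow_le_pow_left₀ (by positivity) hw _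
      _ = n ^ (η / 3) := by
          rw [← Real.rpow_natCast, ← Real.rpow_mul hn0.le]
          congr 1
          push_cast
          field_simp
          norm_num
  have hp3 : ((m : ℝ) ^ r) ^ r ≤ C₀ * n ^ (η / 3) := by
    rw [← pow_mul]
    refine (hlen m).trans (mul_le_mul_of_nonneg_left ?_ hC₀.le)
    refine Real.rpow_le_rpow (by positivity) ?_ (by positivity)
    exact pow_le_pow_left₀ (by norm_num) hq2' m
  have hbig' : L * (m ^ r) ^ r * (Fintype.card α ^ r) ^ r * ((t * (w ^ 3) ^ t ^ r) ^ (s + 1) *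
      (Fintype.card α ^ (2 * θ)) ^ r * Fintype.card α ^ m) < H.card := by
    have h1 : (L : ℝ) * ((m : ℝ) ^ r) ^ r * ((Fintype.card α : ℝ) ^ r) ^ r *
        (((t : ℝ) * (w ^ 3) ^ t ^ r) ^ (s + 1) *
        ((Fintype.card α : ℝ) ^ (2 * θ)) ^ r * (Fintype.card α : ℝ) ^ m) < H.card := by
      refine lt_of_le_of_lt ?_ hbig
      have e1 : ((t : ℝ) * (w ^ 3) ^ t ^ r) ^ (s + 1) =
          (t : ℝ) ^ (s + 1) * (w : ℝ) ^ (3 * t ^ r * (s + 1)) := by
        rw [mul_pow]
        congr 1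
        rw [← pow_mul, ← pow_mul, mul_assoc]
      rw [e1, ← hn]
      have e2 : n ^ (1 + η) = n ^ (η / 3) * n ^ (η / 3) * n ^ (η / 3) * n := by
        rw [← Real.rpow_add hn0, ← Real.rpow_add hn0]
        nth_rw 3 [← Real.rpow_one n]
        rw [← Real.rpow_add hn0]
        congr 1
        ring
      have e3 : (Fintype.card α : ℝ) ^ (r * (r + 2)) =
          ((Fintype.card α : ℝ) ^ r) ^ r * (Fintype.card α : ℝ) ^ (2 * r) := by
        rw [← pow_mul, ← pow_add]
        congr 1
        ring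
      rw [e2, e3]
      calc (L : ℝ) * ((m : ℝ) ^ r) ^ r * ((Fintype.card α : ℝ) ^ r) ^ r *
            ((t : ℝ) ^ (s + 1) * (w : ℝ) ^ (3 * t ^ r * (s + 1)) *
            ((Fintype.card α : ℝ) ^ (2 * θ)) ^ r * n)
          ≤ (L : ℝ) * (C₀ * n ^ (η / 3)) * ((Fintype.card α : ℝ) ^ r) ^ r *
            ((t : ℝ) ^ (s + 1) * n ^ (η / 3) *
            ((Fintype.card α : ℝ) ^ (2 * r) * n ^ (η / 3)) * n) := by gcongr
        _ = _ := by ring
    exact_mod_cast h1
  exact explicit hm s0 hθ1 hk hH hcov hbig' 𝒯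

end Pool.Agent.N598.BT
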