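import Pool.Agent.N598.BT.Main

/-!
# Few vertices for a given number of edges
-/

set_option autoImplicit false

open Finset

namespace Pool.Agent.N598.BT

/-- fixing a coordinate -/
theorem card_update_le {r t : ℕ} (s0 : Fin t) (𝒯 : Finset (Fin r → Fin t)) (b : Fin r) :
    (𝒯.image fun τ => Function.update τ b s0).card ≤ t ^ (r - 1) := by
  classical
  have h1 : (𝒯.image fun τ => Function.update τ b s0) ⊆
      (univ : Finset ({i : Fin r // i ≠ b} → Fin t)).image
        fun f i => if h : i ≠ b then f ⟨i, h⟩ else s0 := by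
    intro g hg
    obtain ⟨τ, -, rfl⟩ := mem_image.1 hg
    refine mem_image.2 ⟨fun i => τ i, mem_univ _, ?_⟩
    funext i
    by_cases hi : i = b
    · subst hi
      simp
    · rw [Function.update_of_ne hi, dif_pos hi]
  refine (card_le_card h1).trans (card_image_le.trans (le_of_eq ?_))
  rw [card_univ, Fintype.card_fun, Fintype.card_fin]
  congr 1
  rw [Fintype.card_subtype_compl, Fintype.card_fin, Fintype.card_subtype_eq]

/-- `e` points of a grid with few vertices -/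
theorem exists_pts (r e : ℕ) (hr : 1 ≤ r) (he : 1 ≤ e) :
    ∃ (t : ℕ) (s0 : Fin t) (𝒯 : Finset (Fin r → Fin t)), 𝒯.card = e ∧
      (∑ b, (𝒯.image fun τ => Function.update τ b s0).card) ^ r ≤
        (r * 2 ^ (r - 1)) ^ r * e ^ (r - 1) := by
  classical
  have hex : ∃ A : ℕ, e ≤ A ^ r := ⟨e, Nat.le_self_pow (by omega) e⟩
  obtain ⟨t, ht⟩ : ∃ t, t = Nat.find hex := ⟨_, rfl⟩
  have h1 : e ≤ t ^ r := ht ▸ Nat.find_spec hex
  have ht1 : 1 ≤ t := by
    by_contra hcon
    have : t = 0 := by omega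
    rw [this, Nat.zero_pow (by omega)] at h1
    omega
  have h2 : (t - 1) ^ r < e := by
    by_contra hcon
    have := Nat.find_min' hex (not_lt.1 hcon)
    omega
  have h3 : t ^ r ≤ 2 ^ r * e := by
    rcases Nat.lt_or_ge t 2 with h | h
    · have : t = 1 := by omega
      rw [this, one_pow]
      exact Nat.mul_pos (by positivity) he
    · calc t ^ r ≤ (2 * (t - 1)) ^ r := Nat.pow_le_pow_left (by omega) r
        _ = 2 ^ r * (t - 1) ^ r := mul_pow _ _ _
        _ ≤ 2 ^ r * e := Nat.mul_le_mul_left _ h2.le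
  have hcard : (univ : Finset (Fin r → Fin t)).card = t ^ r := by
    rw [card_univ, Fintype.card_fun, Fintype.card_fin, Fintype.card_fin]
  obtain ⟨𝒯, -, h𝒯⟩ := exists_subset_card_eq (s := (univ : Finset (Fin r → Fin t))) (n := e)
    (by rw [hcard]; exact h1)
  refine ⟨t, ⟨0, ht1⟩, 𝒯, h𝒯, ?_⟩
  have h4 : (∑ b, (𝒯.image fun τ => Function.update τ b (⟨0, ht1⟩ : Fin t)).card) ≤
      r * t ^ (r - 1) := by
    calc (∑ b, (𝒯.image fun τ => Function.update τ b (⟨0, ht1⟩ : Fin t)).card)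
        ≤ ∑ _b : Fin r, t ^ (r - 1) := sum_le_sum fun b _ => card_update_le _ _ _
      _ = r * t ^ (r - 1) := by rw [sum_const, card_univ, Fintype.card_fin, smul_eq_mul]
  calc (∑ b, (𝒯.image fun τ => Function.update τ b (⟨0, ht1⟩ : Fin t)).card) ^ r
      ≤ (r * t ^ (r - 1)) ^ r := Nat.pow_le_pow_left h4 r
    _ = r ^ r * (t ^ r) ^ (r - 1) := by rw [mul_pow, ← pow_mul, ← pow_mul, mul_comm (r - 1) r]
    _ ≤ r ^ r * (2 ^ r * e) ^ (r - 1) :=
        Nat.mul_le_mul_left _ (Nat.pow_le_pow_left h3 _)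
    _ = (r * 2 ^ (r - 1)) ^ r * e ^ (r - 1) := by
        rw [mul_pow, mul_pow, ← pow_mul, ← pow_mul, mul_comm (r - 1) r, mul_assoc]

open Classical in
/-- Few vertices for a given number of edges. -/
theorem structural (r e : ℕ) (hr : 2 ≤ r) (he : 1 ≤ e) (η : ℝ) (hη : 0 < η) :
    ∃ δ : ℝ, 0 < δ ∧ ∃ C : ℝ,
      ∀ (α : Type) [Fintype α] [Nonempty α] (m L w : ℕ) (H : Finset (Finset (Fin m → α))),
        (∀ h ∈ H, h.card = r) → Covered L w r H → (w : ℝ) ≤ ((Fintype.card α : ℝ) ^ m) ^ δ →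
        C * L * (Fintype.card α : ℝ) ^ (r * (r + 2)) * ((Fintype.card α : ℝ) ^ m) ^ (1 + η) <
          H.card →
        ∃ G ⊆ H, G.card = e ∧
          (G.biUnion id).card ^ r ≤ (r * 2 ^ (r - 1)) ^ r * e ^ (r - 1) := by
  obtain ⟨t, s0, 𝒯, h1, h2⟩ := exists_pts r e (by omega) he
  obtain ⟨δ, hδ, C, hC⟩ := asymptotic hr s0 η hη
  refine ⟨δ, hδ, C, fun α _ _ m L w H hH hcov hw hbig => ?_⟩
  obtain ⟨G, g1, g2, g3⟩ := hC α m L w H hH hcov hw hbig 𝒯
  refine ⟨G, g1, g2.trans h1, (Nat.pow_le_pow_left g3 r).trans ?_⟩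
  convert h2

end Pool.Agent.N598.BT
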