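import Pool.Agent.N598.BT.Main

/-!
# Relations between strings given by tree tensor networks
-/

set_option autoImplicit false

open Finset

namespace Pool.Agent.N598.BT

open Pool.Agent.TH700.PA

variable {α : Type} {m : ℕ}

/-- The relation `R` is the union of the supports of `L` read-once tree tensor networks of bond
dimension at most `w`. -/
def UnionOf (L w : ℕ) {r : ℕ} (R : Set (Fin r → Fin m → α)) : Prop :=
  ∃ F : Fin L → Set (Fin r → Fin m → α), (∀ l, Piece w (F l)) ∧ ⋃ l, F l = R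

/-- a grid with two directions is a product set -/
theorem biclique {t : ℕ} (s0 : Fin t) {S : Set (Fin 2 × Fin m → α)}
    {pt : (Fin 2 → Fin t) → Fin 2 × Fin m → α}
    (h : Grid (fun i : Fin 2 => univ.filter fun p : Fin 2 × Fin m => p.1 = i) t univ S pt) :
    ∃ X Y : Fin t → Fin m → α, Function.Injective X ∧ Function.Injective Y ∧
      ∀ s s', (fun p : Fin 2 × Fin m => (![X s, Y s'] : Fin 2 → Fin m → α) p.1 p.2) ∈ S := by
  have e0 : ∀ a : Fin 2 → Fin t, ∀ j, pt a (0, j) = pt ![s0, a 1] (0, j) := by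
    intro a j
    refine h.par 0 (mem_univ _) _ _ (fun k hk => ?_) (0, j) (mem_filter.2 ⟨mem_univ _, rfl⟩)
    have : k = 1 := by
      fin_cases k
      · exact absurd rfl hk
      · rfl
    subst this
    rfl
  have e1 : ∀ a : Fin 2 → Fin t, ∀ j, pt a (1, j) = pt ![a 0, s0] (1, j) := by
    intro a j
    refine h.par 1 (mem_univ _) _ _ (fun k hk => ?_) (1, j) (mem_filter.2 ⟨mem_univ _, rfl⟩)
    have : k = 0 := by
      fin_cases k
      · rfl
      · exact absurd rfl hk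
    subst this
    rfl
  have key : ∀ a b : Fin 2 → Fin t, (∀ j, pt a (0, j) = pt b (0, j)) →
      (∀ j, pt a (1, j) = pt b (1, j)) → a = b := by
    intro a b h0 h1
    funext i
    refine (h.inj a b).1 ?_ i (mem_univ i)
    funext p
    obtain ⟨c, j⟩ := p
    fin_cases c
    · exact h0 j
    · exact h1 j
  refine ⟨fun s j => pt ![s0, s] (0, j), fun s j => pt ![s, s0] (1, j), ?_, ?_, ?_⟩
  · intro s s' hs
    have := key ![s0, s] ![s0, s'] (fun j => congrFun hs j) (fun j => by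
      rw [e1 ![s0, s], e1 ![s0, s']]
      rfl)
    exact congrFun this 1
  · intro s s' hs
    have := key ![s, s0] ![s', s0] (fun j => by
      rw [e0 ![s, s0], e0 ![s', s0]]
      rfl) (fun j => congrFun hs j)
    exact congrFun this 0
  · intro s s'
    have h2 : (fun p : Fin 2 × Fin m =>
        (![fun j => pt ![s0, s] (0, j), fun j => pt ![s', s0] (1, j)] : Fin 2 → Fin m → α)
          p.1 p.2) = pt ![s', s] := by
      funext p
      obtain ⟨c, j⟩ := p
      fin_cases c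
      · exact (e0 ![s', s] j).symm
      · exact (e1 ![s', s] j).symm
    rw [h2]
    exact h.mem _

/-- The explicit bound for relations. -/
theorem explicit_rel [Fintype α] [Nonempty α] {L w k t θ : ℕ} (s0 : Fin t) (hθ : 1 ≤ θ)
    (hk : 2 * (2 * m) + θ ≤ θ * k) {R : Set (Fin 2 → Fin m → α)} (hR : UnionOf L w R)
    (hbig : L * ((t * (w ^ 3) ^ t ^ 2) ^ k * (Fintype.card α ^ (2 * θ)) ^ 2 * Fintype.card α ^ m) <
      R.ncard) :
    ∃ X Y : Fin t → Fin m → α, Function.Injective X ∧ Function.Injective Y ∧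
      ∀ s s', ![X s, Y s'] ∈ R := by
  classical
  obtain ⟨F, hF, rfl⟩ := hR
  have hex : ∃ l, (t * (w ^ 3) ^ t ^ 2) ^ k * (Fintype.card α ^ (2 * θ)) ^ 2 *
      Fintype.card α ^ m < (F l).ncard := by
    by_contra hcon
    push Not at hcon
    have h1 : (⋃ l, F l).ncard ≤ L * ((t * (w ^ 3) ^ t ^ 2) ^ k * (Fintype.card α ^ (2 * θ)) ^ 2 *
        Fintype.card α ^ m) := by
      have h2 : (⋃ l, F l).ncard ≤ ∑ l, (F l).ncard := by
        have h3 : (⋃ l, F l) = ((univ.biUnion fun l => (F l).toFinset : Finset _) : Set _) := by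
          ext x
          simp
        rw [h3, Set.ncard_coe_finset]
        refine card_biUnion_le.trans (le_of_eq (sum_congr rfl fun l _ => ?_))
        rw [Set.ncard_eq_toFinset_card']
      refine h2.trans ((sum_le_sum fun l _ => hcon l).trans (le_of_eq ?_))
      rw [sum_const, card_univ, Fintype.card_fin, smul_eq_mul]
    omega
  obtain ⟨l, hl⟩ := hex
  obtain ⟨K, _, W, _, T, a, hW, hT, hFl⟩ := hF l
  have hcard : (F l).ncard = Nat.card {z : Fin 2 × Fin m → α // T.value a z ≠ 0 ∧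
      ∀ _ : Fin 2 × Fin m, True} := by
    rw [← Nat.card_coe_set_eq]
    refine Nat.card_congr ⟨fun x => ⟨fun p => x.1 p.1 p.2, ?_, fun _ => trivial⟩,
      fun z => ⟨fun i j => z.1 (i, j), ?_⟩, fun _ => rfl, fun _ => rfl⟩
    · exact (Set.ext_iff.1 hFl x.1).1 x.2
    · exact (Set.ext_iff.1 hFl _).2 z.2.1
  rw [hcard] at hl
  have ht : 1 ≤ t := by
    have := s0.2
    omega
  obtain ⟨pt, hpt⟩ := net_grid ht hθ T a hW hT hk (fun _ _ => True) hl
  obtain ⟨X, Y, h1, h2, h3⟩ := biclique s0 hpt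
  refine ⟨X, Y, h1, h2, fun s s' => Set.mem_iUnion.2 ⟨l, ?_⟩⟩
  rw [hFl]
  exact (h3 s s').1

/-- The asymptotic bound for relations. -/
theorem asymptotic_rel {t : ℕ} (s0 : Fin t) (η : ℝ) (hη : 0 < η) :
    ∃ δ : ℝ, 0 < δ ∧ ∃ C : ℝ, 0 ≤ C ∧ ∀ (α : Type) [Fintype α] [Nonempty α] (m L w : ℕ)
      (R : Set (Fin 2 → Fin m → α)), UnionOf L w R →
      (w : ℝ) ≤ ((Fintype.card α : ℝ) ^ m) ^ δ →
      C * L * (Fintype.card α : ℝ) ^ 4 * ((Fintype.card α : ℝ) ^ m) ^ (1 + η) < R.ncard →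
      ∃ X Y : Fin t → Fin m → α, Function.Injective X ∧ Function.Injective Y ∧
        ∀ s s', ![X s, Y s'] ∈ R := by
  obtain ⟨k0, hk0⟩ := exists_nat_ge (32 / η)
  obtain ⟨s, hs⟩ : ∃ s : ℕ, s = k0 + 1 := ⟨_, rfl⟩
  have hs1 : 1 ≤ s := by omega
  have hsr : (0 : ℝ) < s := by exact_mod_cast hs1
  have hs2 : 32 ≤ η * s := by
    have h1 : 32 / η ≤ s := hk0.trans (by rw [hs]; push_cast; linarith)
    rw [div_le_iff₀ hη] at h1
    linarith
  have ht1 : 1 ≤ t := by
    have := s0.2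
    omega
  have ht1' : (0 : ℝ) < t := by exact_mod_cast ht1
  refine ⟨η / (6 * (s + 1) * (t : ℝ) ^ 2), by positivity, (t : ℝ) ^ (s + 1), by positivity, ?_⟩
  intro α _ _ m L w R hR hw hbig
  have hq : 1 ≤ Fintype.card α := Fintype.card_pos
  have hq' : (1 : ℝ) ≤ Fintype.card α := by exact_mod_cast hq
  obtain ⟨θ, hθ⟩ : ∃ θ, θ = 2 * (2 * m) / s + 1 := ⟨_, rfl⟩
  have hθ1 : 1 ≤ θ := by
    rw [hθ]
    exact Nat.le_add_left 1 _
  have hθ2 : 2 * (2 * m) ≤ θ * s := by
    have := Nat.lt_mul_div_succ (2 * (2 * m)) (show 0 < s by omega)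
    rw [hθ]
    calc 2 * (2 * m) ≤ s * (2 * (2 * m) / s + 1) := this.le
      _ = (2 * (2 * m) / s + 1) * s := mul_comm _ _
  have hk : 2 * (2 * m) + θ ≤ θ * (s + 1) := by
    rw [mul_add, mul_one]
    omega
  set n : ℝ := (Fintype.card α : ℝ) ^ m with hn
  have hn1 : 1 ≤ n := one_le_pow₀ hq'
  have hn0 : 0 < n := by linarith
  have hθr : (θ : ℝ) ≤ 2 * (2 * m) / s + 1 := by
    rw [hθ]
    push_cast
    have : ((2 * (2 * m) / s : ℕ) : ℝ) ≤ ((2 * (2 * m) : ℕ) : ℝ) / s := Nat.cast_div_le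
    push_cast at this
    linarith
  have hp1 : (((Fintype.card α : ℝ) ^ (2 * θ)) ^ 2) ≤ (Fintype.card α : ℝ) ^ 4 * n ^ (η / 2) := by
    rw [← pow_mul, hn, ← Real.rpow_natCast _ (2 * θ * 2), ← Real.rpow_natCast _ 4,
      ← Real.rpow_natCast _ m, ← Real.rpow_mul (by linarith), ← Real.rpow_add (by linarith)]
    refine Real.rpow_le_rpow_of_exponent_le hq' ?_
    push_cast
    have h2 : 4 * (2 * (2 * (m : ℝ)) / s) ≤ m * (η / 2) := by
      rw [show 4 * (2 * (2 * (m : ℝ)) / s) = (16 * m) / s by ring, div_le_iff₀ hsr]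
      have : (0 : ℝ) ≤ m := by positivity
      nlinarith
    nlinarith
  have hp2 : (w : ℝ) ^ (3 * t ^ 2 * (s + 1)) ≤ n ^ (η / 2) := by
    calc (w : ℝ) ^ (3 * t ^ 2 * (s + 1))
        ≤ (n ^ (η / (6 * (s + 1) * (t : ℝ) ^ 2))) ^ (3 * t ^ 2 * (s + 1)) :=
          pow_le_pow_left₀ (by positivity) hw _
      _ = n ^ (η / 2) := by
          rw [← Real.rpow_natCast, ← Real.rpow_mul hn0.le]
          congr 1
          push_cast
          field_simp
          norm_num
  have hbig' : L * ((t * (w ^ 3) ^ t ^ 2) ^ (s + 1) *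
      (Fintype.card α ^ (2 * θ)) ^ 2 * Fintype.card α ^ m) < R.ncard := by
    have h1 : (L : ℝ) * (((t : ℝ) * (w ^ 3) ^ t ^ 2) ^ (s + 1) *
        ((Fintype.card α : ℝ) ^ (2 * θ)) ^ 2 * (Fintype.card α : ℝ) ^ m) < R.ncard := by
      refine lt_of_le_of_lt ?_ hbig
      have e1 : ((t : ℝ) * (w ^ 3) ^ t ^ 2) ^ (s + 1) =
          (t : ℝ) ^ (s + 1) * (w : ℝ) ^ (3 * t ^ 2 * (s + 1)) := by
        rw [mul_pow]
        congr 1
        rw [← pow_mul, ← pow_mul, mul_assoc]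
      rw [e1, ← hn]
      have e2 : n ^ (1 + η) = n ^ (η / 2) * n ^ (η / 2) * n := by
        rw [← Real.rpow_add hn0]
        nth_rw 3 [← Real.rpow_one n]
        rw [← Real.rpow_add hn0]
        congr 1
        ring
      rw [e2]
      calc (L : ℝ) * ((t : ℝ) ^ (s + 1) * (w : ℝ) ^ (3 * t ^ 2 * (s + 1)) *
            ((Fintype.card α : ℝ) ^ (2 * θ)) ^ 2 * n)
          ≤ (L : ℝ) * ((t : ℝ) ^ (s + 1) * n ^ (η / 2) *
            ((Fintype.card α : ℝ) ^ 4 * n ^ (η / 2)) * n) := by gcongr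
        _ = _ := by ring
    exact_mod_cast h1
  exact explicit_rel s0 hθ1 hk hR hbig'

end Pool.Agent.N598.BT
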